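import Pool.Agent.MP_eaab15_an.RR

/-!
A tensor product action with the (tracial) Rokhlin property on a simple stably finite minimal
tensor product of separable simple algebras of real rank zero, whose first factor action does not
have the tracial Rokhlin property.
-/

set_option autoImplicit false

open Pool.Agent.MP_eaab15_an

namespace Pool.Agent.Results.MP_eaab15_an.RealRankZero

theorem result : ∃ (A B : Type) (_ : CStarAlgebra A) (_ : CStarAlgebra B)
    (G H : Type) (_ : Group G) (_ : Fintype G) (_ : Group H) (_ : Fintype H)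
    (α : Action G A) (β : Action H B)
    (E F : Type) (_ : NormedAddCommGroup E) (_ : InnerProductSpace ℂ E) (_ : CompleteSpace E)
    (_ : NormedAddCommGroup F) (_ : InnerProductSpace ℂ F) (_ : CompleteSpace F)
    (π : CStarHom A (BOp E)) (ρ : CStarHom B (BOp F))
    (γ : Action (G × H) (SpatialTensor π ρ)),
    Nontrivial G ∧ Nontrivial H ∧ IsFaithful π ∧ IsFaithful ρ ∧
    IsTensorAction π ρ α β γ ∧
    IsSimpleCStar A ∧ IsSimpleCStar B ∧ IsSimpleCStar (SpatialTensor π ρ) ∧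
    IsStablyFiniteCStar (SpatialTensor π ρ) ∧
    TopologicalSpace.SeparableSpace A ∧ TopologicalSpace.SeparableSpace B ∧
    (∀ x : A, IsSelfAdjoint x → ∀ ε : ℝ, 0 < ε →
      ∃ y : A, IsSelfAdjoint y ∧ IsUnit y ∧ ‖x - y‖ < ε) ∧
    (∀ x : B, IsSelfAdjoint x → ∀ ε : ℝ, 0 < ε →
      ∃ y : B, IsSelfAdjoint y ∧ IsUnit y ∧ ‖x - y‖ < ε) ∧
    HasRokhlin γ ∧ HasTracialRokhlin γ ∧ HasRokhlin β ∧ ¬ HasTracialRokhlin α := by
  obtain ⟨A, B, iA, iB, α, β, hA, hB, hα, hβ, sA, sB, rA, rB, hC⟩ := RR.exists_example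
  obtain ⟨E, e1, e2, e3, π, hπ⟩ := exists_rep hA
  obtain ⟨F, f1, f2, f3, ρ, hρ⟩ := exists_rep hB
  obtain ⟨i, j, hij, hval⟩ := exists_isGen hA hB π ρ hπ hρ
  obtain ⟨h1, h2, γ, hγ, h3⟩ := hC (SpatialTensor π ρ) i j hij
  refine ⟨A, B, iA, iB, ℤˣ, ℤˣ, inferInstance, inferInstance, inferInstance, inferInstance, α, β,
    E, F, e1, e2, e3, f1, f2, f3, π, ρ, γ, ⟨1, -1, by decide⟩, ⟨1, -1, by decide⟩, hπ, hρ,
    fun g h a b x hx => ?_, hA, hB, h1, h2, sA, sB, rA, rB, h3, h3.tracial, hβ, hα⟩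
  have : x = i a * j b := Subtype.ext (hx.trans (hval a b).symm)
  exact (congrArg Subtype.val (this ▸ hγ g h a b)).trans (hval _ _)

end Pool.Agent.Results.MP_eaab15_an.RealRankZero
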